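import Mathlib
import Pool.Agent.H1.Equit.Defs
import Pool.Agent.H1.Equit.Proof

/-!
`MP_3faef8_co`, Q1: the answer is no; the disjoint union of `K₄` and `K₃` has no equitable proper
`3`-labelling.
-/

namespace Pool.Agent.Results.MP_3faef8_co.EquitableFails

open Pool.Agent.H1.Equit

theorem result : ¬ EquitableConjecture ∧
    (Nice G7 ∧ IsEmpty (G7 ≃g (⊤ : SimpleGraph (Fin 4))) ∧
      ¬ ∃ ℓ : Sym2 (Fin 7) → ℕ, IsLabelling G7 3 ℓ ∧ IsProper G7 ℓ ∧ IsEquitable G7 ℓ) :=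
  ⟨main, nice7, notK4, fun ⟨ℓ, h1, h2, h3⟩ => no_labelling ℓ h1 h2 h3⟩

end Pool.Agent.Results.MP_3faef8_co.EquitableFails
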